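import Pool.Agent.H85.HY.Fin

/-!
# MP_ab3ecb_nt: curves of every genus over every number field which fail the Hasse principle over all
extensions of odd degree

Let `K` be any number field and `γ ≥ 1`.  We prove that there are infinitely many smooth hyperelliptic curves
`C : x² = Q(s, t)` of genus `γ` over `K` such that `C` has points over all completions of `K` (and so over all
completions of all finite extensions of `K`), and such that `C(A_L)^Br` is empty for all extensions `L` of
`K` of odd degree.  More precisely, `Q = f g q² + a h²` where `f`, `g` are quadratic forms, and `q`, `h` are forms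
of degree `γ - 1`, `γ + 1`, so that the quaternion algebra `(a, f)`, which is equivalent to `(a, g)`, is
unramified on `C`, and for every family of points `P_w ∈ C(L_w)` the value of this algebra at `P_w` is
nontrivial at an odd number of finite places `w` of `L`, and trivial at all real places.

Construction.  Let `𝔭` be a prime above 3.  There is a totally positive `a ≡ 1` modulo 8 in `O_K` with
`𝔭`-adic valuation 1.  As `-(1 + B²)` takes a nonzero square value and a nonsquare value modulo
every odd prime, there is `B₀ ≡ 1` modulo 4 such that `r = 2a - 1 - B₀²` is coprime to `a`, a square modulo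
all the primes dividing `a` other than `𝔭`, and not a square modulo `𝔭`.  Then `r ≡ 0` modulo 8.  Let
`R = r - a = a - 1 - B₀²` and `N = r² - a R²`.  There is `B ∈ O_K` with `B ≡ 1 + r/2` modulo `2r`, `B ≡ B₀` modulo
`R`, `B ≡ R` modulo `N`.  The numbers `x = (1 + B² - r)/(2R)`, `y = (B² - r - 1)/(2r)`,
`G = (R - r (x² - a y²))/N`, `δ = (1 + a R G)/r - a G` are in `O_K`, and

  `r δ + a² G = 1`,  `n := r G + x² = (r - a)(δ + a G) + a y²`,  `n N = r² - a B²`.

Let `f = r s² - a t²` and `g = a G s² + δ t²`, which generate powers of `s` and `t` since `r δ + a² G = 1`.  If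
`h(1,0) = x q(1,0)`, `h(1,1) = y q(1,1)` and `h(0,1) = (δ/ν + ν)/2 q(0,1)`, then
`Q = f g q² + a h²` takes the values `a n`, `n`, `a` at these three points, up to squares.  If `a` is not a square
in the completion `K_v` then `v` does not divide 2, and if `v` divides `a` then `n ≡ 1` modulo `v` is a
square, and if `v` does not divide `a`, then `n` is a norm from the unramified extension `K_v(√a)`, so it has
even valuation and `n` or `a n` is a square.  So `C` has points over `K_v` in all cases.  For the algebra see
`OddDegreeExtensions`: the places `w` of `L` at which it is nontrivial are those with `w(a)` odd and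
such that `r` is not a square modulo `w`, and their number is odd since `𝔭` is the only such place of `K`.
Finally, for `q = (s + t)^(γ-1)` and `h = h₀ + c t^γ (t - s)` the form `Q` has no multiple
roots for all but finitely many `c`: the multiple roots are among the roots of a fixed polynomial.
-/

set_option autoImplicit false

open NumberField IsDedekindDomain MvPolynomial

namespace Pool.Agent.Results.MP_ab3ecb_nt.EveryNumberField

/-- `x² = Q(s, t)` is a smooth curve of genus `γ` in the weighted projective space with coordinates `s, t` of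
weight 1 and `x` of weight `γ + 1`: the form `Q` has degree `2γ + 2` and at all of its nontrivial zeros over
the algebraic closure one of its partial derivatives is not zero. -/
def IsCurve {K : Type} [Field K] (γ : ℕ) (Q : MvPolynomial (Fin 2) K) : Prop :=
  Q.IsHomogeneous (2 * γ + 2) ∧ ∀ z : Fin 2 → AlgebraicClosure K, z ≠ 0 → aeval z Q = 0 →
    ∃ i, aeval z (pderiv i Q) ≠ 0

/-- The value of the form `f` at `P = (s, t, x)`, where the coefficients are mapped to `E` by `φ`. -/
noncomputable def value {K E : Type} [Field K] [Field E] (φ : K →+* E)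
    (f : MvPolynomial (Fin 2) K) (P : Fin 3 → E) : E := eval₂ φ ![P 0, P 1] f

/-- `P = (s, t, x)` is a point over the field `E` of the curve `x² = Q(s, t)`. -/
def IsPoint {K E : Type} [Field K] [Field E] (φ : K →+* E) (Q : MvPolynomial (Fin 2) K)
    (P : Fin 3 → E) : Prop :=
  ![P 0, P 1] ≠ 0 ∧ P 2 ^ 2 = value φ Q P

/-- The curve has points over all completions of `K`. -/
def LocallySoluble {K : Type} [Field K] [NumberField K] (Q : MvPolynomial (Fin 2) K) : Prop :=
  (∀ v : HeightOneSpectrum (𝓞 K), ∃ P, IsPoint (algebraMap K (v.adicCompletion K)) Q P) ∧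
  (∀ σ : K →+* ℝ, ∃ P, IsPoint σ Q P) ∧ (∀ σ : K →+* ℂ, ∃ P, IsPoint σ Q P)

/-- The quaternion algebra `(a, b)` over the field `E` is split (for `a, b ≠ 0`): `b` is a norm. -/
def IsNorm {E : Type} [Field E] (a b : E) : Prop := ∃ x y : E, x ^ 2 - a * y ^ 2 = b

/-- The value at `P` of the algebra `(a, f)`, which is equivalent to `(a, g)`, is trivial. -/
def Trivial {K E : Type} [Field K] [Field E] (φ : K →+* E) (a : K)
    (f g : MvPolynomial (Fin 2) K) (P : Fin 3 → E) : Prop :=
  (value φ f P ≠ 0 → IsNorm (φ a) (value φ f P)) ∧ (value φ g P ≠ 0 → IsNorm (φ a) (value φ g P))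

/-- The value of the algebra is well defined at all points of the curve over all fields: `f` and `g` are not
both zero, and if none of them is zero then one is a norm if and only if the other is. -/
def WellDefined {K : Type} [Field K] (a : K) (f g Q : MvPolynomial (Fin 2) K) : Prop :=
  ∀ (E : Type) [Field E] (φ : K →+* E) (P : Fin 3 → E), IsPoint φ Q P →
    (value φ f P ≠ 0 ∨ value φ g P ≠ 0) ∧
    (value φ f P ≠ 0 → value φ g P ≠ 0 →
      (IsNorm (φ a) (value φ f P) ↔ IsNorm (φ a) (value φ g P)))

/-- The map from `K` to the completion `L_w`. -/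
noncomputable def toCompletion (K L : Type) [Field K] [Field L] [NumberField L] [Algebra K L]
    (w : HeightOneSpectrum (𝓞 L)) : K →+* w.adicCompletion L :=
  (algebraMap L (w.adicCompletion L)).comp (algebraMap K L)

/-- For all `L` of odd degree over `K` and all adelic points over `L` of the curve `x² = Q(s, t)`, the number of
places at which the value of the algebra `(a, f)` is not trivial is odd (and all of these places are
finite), where `Q = f g q² + a h²`. -/
def Obstructed {K : Type} [Field K] [NumberField K] (γ : ℕ) (Q : MvPolynomial (Fin 2) K) : Prop :=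
  ∃ (a : K) (f g q h : MvPolynomial (Fin 2) K), f.IsHomogeneous 2 ∧ g.IsHomogeneous 2 ∧
    q.IsHomogeneous (γ - 1) ∧ h.IsHomogeneous (γ + 1) ∧ Q = f * g * q ^ 2 + C a * h ^ 2 ∧
    WellDefined a f g Q ∧
    ∀ (L : Type) [Field L] [NumberField L] [Algebra K L], Odd (Module.finrank K L) →
      (∀ P : (w : HeightOneSpectrum (𝓞 L)) → Fin 3 → w.adicCompletion L,
        (∀ w, IsPoint (toCompletion K L w) Q (P w)) →
        {w | ¬ Trivial (toCompletion K L w) a f g (P w)}.Finite ∧
        Odd {w | ¬ Trivial (toCompletion K L w) a f g (P w)}.ncard) ∧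
      (∀ (σ : L →+* ℝ) (P : Fin 3 → ℝ), IsPoint (σ.comp (algebraMap K L)) Q P →
        Trivial (σ.comp (algebraMap K L)) a f g P) ∧
      (∀ (σ : L →+* ℂ) (P : Fin 3 → ℂ), IsPoint (σ.comp (algebraMap K L)) Q P →
        Trivial (σ.comp (algebraMap K L)) a f g P)

section proof

open Pool.Agent.H85.HY (Data exists_data cν fO gO qO hO fO_hom gO_hom qO_hom hO_hom QO_hom hm Tr
  norm_iff not_both real_tr complex_tr unitRes)
open Pool.Agent.H85.CY (phi)

variable {K : Type} [Field K] [NumberField K] (D : Data K)

lemma locallySoluble (k : ℕ) {ν : K} (hν : ν ≠ 0) :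
    LocallySoluble (D.Q k (cν (D.δ : K) ν)) := by
  refine ⟨?_, ?_, ?_⟩
  · intro v
    obtain ⟨ρ, hρ⟩ := D.three v
    have : CharZero (v.adicCompletion K) := charZero_of_injective_algebraMap
      (algebraMap K (v.adicCompletion K)).injective
    obtain ⟨P, h1, h2⟩ := D.point k (algebraMap K (v.adicCompletion K)) hν ρ hρ
    exact ⟨P, h1, h2⟩
  · intro σ
    obtain ⟨P, h1, h2⟩ := D.point k σ hν (Real.sqrt (σ D.a))
      (Or.inl (Real.sq_sqrt (D.hpos σ).le))
    exact ⟨P, h1, h2⟩
  · intro σ
    obtain ⟨ρ, hρ⟩ := IsAlgClosed.exists_pow_nat_eq (σ D.a) two_pos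
    obtain ⟨P, h1, h2⟩ := D.point k σ hν ρ (Or.inl hρ)
    exact ⟨P, h1, h2⟩

lemma unitResK : Pool.Agent.H85.HY.UnitRes (fO (D.a : K) (D.r : K))
    (gO (D.a : K) (D.G : K) (D.δ : K)) := by
  apply unitRes
  have h := congrArg (algebraMap (𝓞 K) K) D.hdet
  rw [map_add, map_mul, map_mul, map_pow, map_one] at h
  exact h

lemma wellDefined (k : ℕ) {c : K} (hc : hm k (D.x : K) (D.y : K) c ≠ 0) :
    WellDefined (D.a : K) (fO (D.a : K) (D.r : K)) (gO (D.a : K) (D.G : K) (D.δ : K))
      (D.Q k c) := by
  intro E _ φ P hP
  have : CharZero E := (RingHom.charZero_iff φ.injective).1 inferInstance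
  exact ⟨not_both φ (unitResK D) _ hP.1, fun h1 h2 =>
    norm_iff (D.norm k φ hc P hP.1 hP.2) h1 h2⟩

lemma obstructed (k : ℕ) {c : K} (hc : hm k (D.x : K) (D.y : K) c ≠ 0) :
    Obstructed (k + 1) (D.Q k c) := by
  refine ⟨(D.a : K), fO (D.a : K) (D.r : K), gO (D.a : K) (D.G : K) (D.δ : K), qO K k,
    hO k (D.x : K) (D.y : K) c, fO_hom _ _, gO_hom _ _ _, ?_, hO_hom _ _ _ _, rfl,
    wellDefined D k hc, ?_⟩
  · rw [Nat.add_sub_cancel]
    exact qO_hom k
  intro L _ _ _ hL
  have htower : ∀ x : 𝓞 K, algebraMap (𝓞 K) L x = algebraMap K L (algebraMap (𝓞 K) K x) := by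
    intro x
    rw [← IsScalarTower.algebraMap_apply]
  refine ⟨?_, ?_, ?_⟩
  · intro P hP
    have hφ : ∀ (w : HeightOneSpectrum (𝓞 L)) (x : 𝓞 K),
        toCompletion K L w (x : K) = phi K w x := by
      intro w x
      change algebraMap L (w.adicCompletion L) (algebraMap K L (algebraMap (𝓞 K) K x)) =
        algebraMap L (w.adicCompletion L) (algebraMap (𝓞 K) L x)
      rw [htower]
    have hvf : ∀ w, value (toCompletion K L w) (fO (D.a : K) (D.r : K)) (P w) =
        eval ![P w 0, P w 1] (map (phi K w) (fO D.a D.r)) := by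
      intro w
      rw [value, eval_map, Pool.Agent.H85.HY.val_f, Pool.Agent.H85.HY.val_f, hφ, hφ]
    have hvg : ∀ w, value (toCompletion K L w) (gO (D.a : K) (D.G : K) (D.δ : K)) (P w) =
        eval ![P w 0, P w 1] (map (phi K w) (gO D.a D.G D.δ)) := by
      intro w
      rw [value, eval_map, Pool.Agent.H85.HY.val_g, Pool.Agent.H85.HY.val_g, hφ, hφ, hφ]
    have hnorm : ∀ w, Pool.Agent.H85.BM.IsNorm (phi K w D.a)
        (eval ![P w 0, P w 1] (map (phi K w) (fO D.a D.r)) *
          eval ![P w 0, P w 1] (map (phi K w) (gO D.a D.G D.δ))) := by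
      intro w
      have : CharZero (w.adicCompletion L) := charZero_of_injective_algebraMap
        (algebraMap L (w.adicCompletion L)).injective
      have h := D.norm k (toCompletion K L w) hc (P w) (hP w).1 (hP w).2
      rw [hφ] at h
      rw [← hvf, ← hvg]
      exact h
    have key := D.main hL (fun w => ![P w 0, P w 1]) (fun w => (hP w).1) hnorm
    have h1 : {w | ¬ Trivial (toCompletion K L w) (D.a : K) (fO (D.a : K) (D.r : K))
        (gO (D.a : K) (D.G : K) (D.δ : K)) (P w)} =
        {w | ¬ Tr (phi K w D.a) (eval ![P w 0, P w 1] (map (phi K w) (fO D.a D.r)))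
          (eval ![P w 0, P w 1] (map (phi K w) (gO D.a D.G D.δ)))} := by
      ext w
      rw [Set.mem_ofPred_eq, Set.mem_ofPred_eq]
      apply not_congr
      unfold Trivial
      rw [hvf, hvg, hφ]
      exact Iff.rfl
    rw [h1]
    exact key
  · intro σ P _
    refine real_tr _ ?_ _ _
    exact D.hpos (σ.comp (algebraMap K L))
  · intro σ P _
    refine complex_tr _ ?_ _ _
    rw [Ne, map_eq_zero]
    intro h
    apply D.ha0
    apply RingOfIntegers.coe_injective
    rw [map_zero]
    exact h

end proof

open Pool.Agent.H85.HY (Data exists_data cν QO_hom hm) in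
/-- **Theorem.** Let `K` be any number field and `γ ≥ 1`.  There are infinitely many smooth hyperelliptic
curves `x² = Q(s, t)` of genus `γ` over `K` which have points over all completions of `K`, such that for all
`L` of odd degree over `K` and all adelic points over `L`, the sum of the local invariants of the unramified
quaternion algebra `(a, f)` is `1/2`. -/
theorem result (K : Type) [Field K] [NumberField K] (γ : ℕ) (hγ : 1 ≤ γ) :
    {Q : MvPolynomial (Fin 2) K | IsCurve γ Q ∧ LocallySoluble Q ∧ Obstructed γ Q}.Infinite := by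
  obtain ⟨k, rfl⟩ : ∃ k, γ = k + 1 := ⟨γ - 1, by omega⟩
  obtain ⟨D⟩ := exists_data K
  obtain ⟨T, hT, hsm⟩ := D.smooth k
  refine D.infinite k T hT _ ?_
  intro ν hν hc
  obtain ⟨h1, h2⟩ := hsm _ hc
  refine ⟨⟨?_, h2⟩, locallySoluble D k hν, obstructed D k h1⟩
  exact QO_hom k _ _ _ _ _ _ _

end Pool.Agent.Results.MP_ab3ecb_nt.EveryNumberField
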