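import Pool.Agent.H85.HY.Main

/-!
# MP_ab3ecb_nt: families of curves with empty Brauer-Manin set over all extensions of odd degree

Let `K` be a number field, `a = c² + 4k` with `c, k ∈ O_K` and `c` coprime to 2, such that `a` is totally
positive, and let `r ∈ O_K` be coprime to `a` with Jacobi symbol `(r/a) = -1`.  Let `f, g ∈ O_K[s, t]` be forms
of even degrees `2i` and `2j` without common zeros modulo any prime (the resultant is a unit), such that
`f ≡ r S²` and `g ≡ r T²` modulo `a` for some `S, T ∈ O_K[s, t]`.  For example, `f = r sᵐ + β tᵐ` and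
`g = γ sᵐ + δ tᵐ` with `m` even, `a ∣ β`, `a ∣ γ` and `r δ - β γ = 1`.

Let `L` be any number field of odd degree over `K`, and let `C` be ANY curve over `L` on the surface

  `x² - a y² = f(s,t) g(s,t)`

in the weighted projective space with coordinates `s, t` of weight 1 and `x, y` of weight `i + j`.  For
example, `C` can be the hyperelliptic curve `x² = f(s,t) g(s,t) + a h(s,t)²`, of genus `i + j - 1` if it is
smooth, where `h` is any form of degree `i + j` over `L`.  By the equation of the surface, the quaternion
algebra `(a, f)` (which is equivalent to `(a, g)`) is unramified on the smooth curve `C`.  We prove that for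
every family of points `P_w ∈ C(L_w)`, the value of the algebra at `P_w` is nontrivial at an odd number of
finite places `w`, and it is trivial at all real places.  So the sum of the invariants is `1/2` for all adelic
points of `C`: the set `C(A_L)^Br` is empty.  So the assertion of the conjecture is true for all these curves.

Proof.  Let `w` be a finite place of `L`.  We normalise the point such that the minimum of the valuations
of `s, t` is zero.  Then one of the two values `f(s,t), g(s,t)` is a unit.  If `w(a)` is even, then `a` is a
square in `L_w` or the extension `L_w(√a)` is unramified, and units are norms.  If `w(a)` is odd, then `w`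
is odd, and the unit value is `≡ r S²` or `≡ r T²`, so the algebra is trivial at the point if and only if `r` is
a square in the residue field of `w`.  If `v` is the place of `K` below `w`, with ramification index
`e` and residue degree `d`, then `w(a) = e v(a)`, and if `r` is not a square modulo `v`, it is not a square
modulo `w` if and only if `d` is odd.  As the sum of the `e d` over all `w` above `v` is the degree
of `L` over `K`, the number of `w` above `v` with `e d` odd is odd.
-/

set_option autoImplicit false

open NumberField IsDedekindDomain MvPolynomial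

namespace Pool.Agent.Results.MP_ab3ecb_nt.OddDegreeExtensions

/-- The set of the places `v` such that the valuation of `a` at `v` is odd and `r` is not a square
modulo `v`.  (The Jacobi symbol `(r/a)` is `-1` if and only if the number of these places is odd.) -/
def Bad {R : Type} [CommRing R] [IsDedekindDomain R] (a r : R) : Set (HeightOneSpectrum R) :=
  {v | (∃ j : ℤ, v.intValuation a = WithZero.exp (2 * j + 1)) ∧
    ¬ IsSquare (Ideal.Quotient.mk v.asIdeal r)}

/-- The forms `f` and `g` in the variables `s, t` have no common zero modulo any prime: the ideal that they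
generate contains powers of `s` and `t`. -/
def Coprime {R : Type} [CommRing R] (f g : MvPolynomial (Fin 2) R) : Prop :=
  ∃ N : ℕ, ∀ i : Fin 2, ∃ A B : MvPolynomial (Fin 2) R, A * f + B * g = X i ^ N

/-- The value of the form `f` at `(s, t)`. -/
noncomputable def value {R F : Type} [CommRing R] [Field F] (φ : R →+* F)
    (f : MvPolynomial (Fin 2) R) (P : Fin 4 → F) : F := eval₂ φ ![P 0, P 1] f

/-- `P = (s, t, x, y)` is a point over the field `F` of the surface `x² - a y² = f(s,t) g(s,t)`, where the
coefficients are mapped to `F` by `φ`. -/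
def OnSurface {R F : Type} [CommRing R] [Field F] (φ : R →+* F) (a : R)
    (f g : MvPolynomial (Fin 2) R) (P : Fin 4 → F) : Prop :=
  ![P 0, P 1] ≠ 0 ∧ P 2 ^ 2 - φ a * P 3 ^ 2 = value φ f P * value φ g P

/-- `P` satisfies all the equations of the set `E`: together with the equation of the surface they define
the curve. -/
def Satisfies {L F : Type} [Field L] [Field F] (ψ : L →+* F) (E : Set (MvPolynomial (Fin 4) L))
    (P : Fin 4 → F) : Prop := ∀ e ∈ E, eval₂ ψ P e = 0

/-- The quaternion algebra `(a, b)` over the field `F` is split (for `a, b ≠ 0`): `b` is a norm. -/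
def IsNorm {F : Type} [Field F] (a b : F) : Prop := ∃ x y : F, x ^ 2 - a * y ^ 2 = b

/-- The value at `P` of the algebra `(a, f)`, which is equivalent to `(a, g)`, is trivial. -/
def Trivial {R F : Type} [CommRing R] [Field F] (φ : R →+* F) (a : R)
    (f g : MvPolynomial (Fin 2) R) (P : Fin 4 → F) : Prop :=
  (value φ f P ≠ 0 → IsNorm (φ a) (value φ f P)) ∧ (value φ g P ≠ 0 → IsNorm (φ a) (value φ g P))

/-- The value of the algebra is well defined at all points of the surface over all fields: `f` and `g` are not
both zero, and if none of them is zero then one is a norm if and only if the other is. -/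
def WellDefined {R : Type} [CommRing R] (a : R) (f g : MvPolynomial (Fin 2) R) : Prop :=
  ∀ (F : Type) [Field F] (φ : R →+* F) (P : Fin 4 → F), OnSurface φ a f g P →
    (value φ f P ≠ 0 ∨ value φ g P ≠ 0) ∧
    (value φ f P ≠ 0 → value φ g P ≠ 0 →
      (IsNorm (φ a) (value φ f P) ↔ IsNorm (φ a) (value φ g P)))

/-- The map from `O_K` to the completion `L_w`. -/
noncomputable def toCompletion (K L : Type) [Field K] [Field L] [NumberField L] [Algebra K L]
    (w : HeightOneSpectrum (𝓞 L)) : 𝓞 K →+* w.adicCompletion L :=
  (algebraMap L (w.adicCompletion L)).comp (algebraMap (𝓞 K) L)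

section proof

open Pool.Agent.H85.HY (Tr UnitRes norm_iff not_both main real_tr complex_tr)
open Pool.Agent.H85.CY (phi)

lemma wellDefined {R : Type} [CommRing R] (a : R) (f g : MvPolynomial (Fin 2) R)
    (hfg : Coprime f g) : WellDefined a f g := by
  intro F _ φ P hP
  refine ⟨not_both φ hfg _ hP.1, fun h1 h2 => ?_⟩
  exact norm_iff ⟨_, _, hP.2⟩ h1 h2

lemma value_eq {K L : Type} [Field K] [NumberField K] [Field L] [NumberField L] [Algebra K L]
    (w : HeightOneSpectrum (𝓞 L)) (f : MvPolynomial (Fin 2) (𝓞 K)) (P : Fin 4 → w.adicCompletion L) :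
    value (toCompletion K L w) f P = eval ![P 0, P 1] (map (phi K w) f) := by
  rw [eval_map]
  rfl

end proof

open Pool.Agent.H85.HY (Tr UnitRes norm_iff not_both main real_tr complex_tr) in
open Pool.Agent.H85.CY (phi) in
/-- **Theorem.** Let `K` be a number field, `a = c² + 4k ∈ O_K` totally positive with `c` coprime to 2, `r ∈ O_K`
coprime to `a` with Jacobi symbol `(r/a) = -1`, and `f, g ∈ O_K[s, t]` coprime forms of even degrees which are
congruent to `r S²`, `r T²` modulo `a`.  The value of the algebra `(a, f)` is well defined at all points of the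
surface `x² - a y² = f(s,t) g(s,t)`, and for all number fields `L` of odd degree over `K`, all curves `C` over `L`
in this surface, given by a set `E` of further equations, and all families of points `P_w ∈ C(L_w)`, the
set of the finite places `w` such that the value at `P_w` is not trivial is finite and has an odd number
of elements.  The value is trivial at all real and complex points. -/
theorem result (K : Type) [Field K] [NumberField K] (c k r : 𝓞 K) (hc : IsCoprime c 2)
    (hpos : ∀ σ : K →+* ℝ, 0 < σ (algebraMap (𝓞 K) K (c ^ 2 + 4 * k)))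
    (hr : IsCoprime r (c ^ 2 + 4 * k)) (hbad : Odd (Bad (c ^ 2 + 4 * k) r).ncard) (i j : ℕ)
    (f g S T : MvPolynomial (Fin 2) (𝓞 K))
    (hf : f.IsHomogeneous (2 * i)) (hg : g.IsHomogeneous (2 * j)) (hfg : Coprime f g)
    (hfS : C (c ^ 2 + 4 * k) ∣ f - C r * S ^ 2) (hgT : C (c ^ 2 + 4 * k) ∣ g - C r * T ^ 2) :
    WellDefined (c ^ 2 + 4 * k) f g ∧
    ∀ (L : Type) [Field L] [NumberField L] [Algebra K L], Odd (Module.finrank K L) →
      ∀ E : Set (MvPolynomial (Fin 4) L),
      (∀ P : (w : HeightOneSpectrum (𝓞 L)) → Fin 4 → w.adicCompletion L,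
        (∀ w, OnSurface (toCompletion K L w) (c ^ 2 + 4 * k) f g (P w) ∧
          Satisfies (algebraMap L (w.adicCompletion L)) E (P w)) →
        {w | ¬ Trivial (toCompletion K L w) (c ^ 2 + 4 * k) f g (P w)}.Finite ∧
        Odd {w | ¬ Trivial (toCompletion K L w) (c ^ 2 + 4 * k) f g (P w)}.ncard) ∧
      (∀ (σ : L →+* ℝ) (P : Fin 4 → ℝ),
        Trivial (σ.comp (algebraMap (𝓞 K) L)) (c ^ 2 + 4 * k) f g P) ∧
      (∀ (σ : L →+* ℂ) (P : Fin 4 → ℂ),
        Trivial (σ.comp (algebraMap (𝓞 K) L)) (c ^ 2 + 4 * k) f g P) := by
  refine ⟨wellDefined _ f g hfg, ?_⟩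
  intro L _ _ _ hL E
  have ha : c ^ 2 + 4 * k ≠ 0 := by
    intro h0
    have h1 : Bad (c ^ 2 + 4 * k) r = ∅ := by
      rw [Set.eq_empty_iff_forall_notMem]
      rintro v ⟨⟨l, hl⟩, -⟩
      rw [h0, map_zero] at hl
      exact WithZero.exp_ne_zero hl.symm
    rw [h1, Set.ncard_empty] at hbad
    exact absurd hbad (by decide)
  have htower : ∀ x : 𝓞 K, algebraMap (𝓞 K) L x = algebraMap K L (algebraMap (𝓞 K) K x) := by
    intro x
    rw [← IsScalarTower.algebraMap_apply]
  refine ⟨?_, ?_, ?_⟩
  · intro P hP
    have key := main K c k r hc hr hbad f g S T hf hg hfg hfS hgT L hL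
      (fun w => ![P w 0, P w 1]) (fun w => (hP w).1.1) (fun w => by
        refine ⟨P w 2, P w 3, ?_⟩
        have h := (hP w).1.2
        rw [value_eq, value_eq] at h
        exact h)
    have h1 : ∀ w, Trivial (toCompletion K L w) (c ^ 2 + 4 * k) f g (P w) ↔
        Tr (phi K w (c ^ 2 + 4 * k)) (eval ![P w 0, P w 1] (map (phi K w) f))
          (eval ![P w 0, P w 1] (map (phi K w) g)) := by
      intro w
      unfold Trivial
      rw [value_eq, value_eq]
      exact Iff.rfl
    have h2 : {w | ¬ Trivial (toCompletion K L w) (c ^ 2 + 4 * k) f g (P w)} =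
        {w | ¬ Tr (phi K w (c ^ 2 + 4 * k)) (eval ![P w 0, P w 1] (map (phi K w) f))
          (eval ![P w 0, P w 1] (map (phi K w) g))} := by
      ext w
      exact not_congr (h1 w)
    rw [h2]
    exact key
  · intro σ P
    refine real_tr _ ?_ _ _
    have h1 := hpos (σ.comp (algebraMap K L))
    rw [RingHom.comp_apply, ← htower] at h1
    rw [RingHom.comp_apply]
    exact h1
  · intro σ P
    refine complex_tr _ ?_ _ _
    rw [RingHom.comp_apply, htower]
    intro h0
    rw [map_eq_zero, map_eq_zero] at h0
    apply ha
    apply FaithfulSMul.algebraMap_injective (𝓞 K) K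
    rw [h0, map_zero]

end Pool.Agent.Results.MP_ab3ecb_nt.OddDegreeExtensions
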